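import Pool.Agent.N255.AX.Rot
import Pool.Agent.W221.NS.Asm3
import Pool.Agent.W221.NS.Fin4

/-!
Axisymmetric flows: there are no singular points off the axis.
-/

set_option autoImplicit false

open MeasureTheory Set Metric Filter Topology
open scoped ContDiff ENNReal

namespace Pool.Agent.N255.AX

open H459R3.NS W221.NS Pool.Agent.TH305.AX

lemma norm_rot_ge (θ : ℝ) (w : V) : ‖w‖ ≤ 2 * ‖rot θ w‖ := by
  have h := rot_norm (-θ) (rot θ w)
  rw [rot_add, neg_add_cancel, rot_zero'] at h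
  exact h

lemma rot_sub (θ : ℝ) (x y : V) : rot θ (x - y) = rot θ x - rot θ y := by
  have h := (rotL θ).map_sub x y
  exact h

/-- The rotated points of a singular point are singular. -/
lemma sing_rot {T : ℝ} (hT : 0 < T) {Ω : Set V} (hΩ : IsOpen Ω) {u : ℝ → V → V}
    (ha : ∀ t ∈ Ioo 0 T, AxiOn Ω (u t)) {x : V} (hx : x ∈ Ω) (hS : Sing T u x) (θ : ℝ) :
    Sing T u (rot θ x) := by
  intro δ hδ B
  obtain ⟨ρ, hρ, hρΩ⟩ := Metric.isOpen_iff.1 hΩ x hx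
  have hpos : 0 < min (δ / 2) (min T ρ) := lt_min (by positivity) (lt_min hT hρ)
  obtain ⟨t, ht, y, hy, hB⟩ := hS (min (δ / 2) (min T ρ)) hpos (2 * B)
  have h1 : min (δ / 2) (min T ρ) ≤ δ / 2 := min_le_left _ _
  have h2 : min (δ / 2) (min T ρ) ≤ T := (min_le_right _ _).trans (min_le_left _ _)
  have h3 : min (δ / 2) (min T ρ) ≤ ρ := (min_le_right _ _).trans (min_le_right _ _)
  refine ⟨t, ⟨by linarith [ht.1], ht.2⟩, rot θ y, ?_, ?_⟩
  · rw [mem_ball, dist_eq_norm] at hy ⊢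
    rw [← rot_sub]
    exact (rot_norm θ _).trans_lt (by linarith)
  · have hyΩ : y ∈ Ω := hρΩ (ball_subset_ball h3 hy)
    have ht0 : t ∈ Ioo 0 T := ⟨by linarith [ht.1], ht.2⟩
    rw [(ha t ht0 θ y hyΩ).2]
    have := norm_rot_ge θ (u t y)
    linarith

/-- There are no singular points off the axis. -/
theorem off_axis {ν T E F : ℝ} {Ω : Set V} {u : ℝ → V → V} {p : ℝ → V → ℝ} {f : ℝ → V → V}
    (hν : 0 < ν) (hT : 0 < T) (h : OSolF ν T E F Ω u p f) (ha : ∀ t ∈ Ioo 0 T, AxiOn Ω (u t))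
    (hfin : ∫⁻ t in Ioo 0 T, ∫⁻ y in Ω, ENNReal.ofReal (gsq (u t) y) ≠ ⊤) {x₀ : V}
    (hx₀ : x₀ ∈ Ω) (h0 : 0 < sg x₀) : ¬ Sing T u x₀ := by
  intro hS
  obtain ⟨C, hC, H⟩ := omega_final3 B.p_omega3 B.p_osc3 B.p_mink
  obtain ⟨K, hK⟩ : ∃ K : Set V, K = {y | sg y = sg x₀ ∧ y 2 = x₀ 2} := ⟨_, rfl⟩
  have hrot : ∀ y ∈ K, ∃ θ, rot θ x₀ = y := by
    intro y hy
    rw [hK] at hy
    obtain ⟨θ, hθ⟩ := circ_pt x₀ (c := y 0) (d := y 1) hy.1
    refine ⟨θ, ?_⟩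
    rw [hθ]
    funext i
    fin_cases i
    · rfl
    · rfl
    · exact hy.2.symm
  have hKΩ : K ⊆ Ω := by
    intro y hy
    obtain ⟨θ, rfl⟩ := hrot y hy
    exact (ha (T / 2) ⟨by linarith, by linarith⟩ θ x₀ hx₀).1
  have hKin : ∀ θ : ℝ, rot θ x₀ ∈ K := by
    intro θ
    rw [hK]
    refine ⟨?_, rfl⟩
    unfold sg
    rw [rot0, rot1]
    linear_combination (x₀ 0 ^ 2 + x₀ 1 ^ 2) * Real.sin_sq_add_cos_sq θ
  have hsgc : Continuous (fun y : V => sg y) := by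
    unfold sg
    fun_prop
  have hKc : IsCompact K := by
    refine Metric.isCompact_of_isClosed_isBounded ?_ ?_
    · rw [hK]
      exact (isClosed_eq hsgc continuous_const).inter
        (isClosed_eq (continuous_apply 2) continuous_const)
    · refine (Metric.isBounded_closedBall (x := (0 : V)) (r := 2 * ‖x₀‖)).subset ?_
      intro y hy
      obtain ⟨θ, rfl⟩ := hrot y hy
      rw [mem_closedBall_zero_iff]
      exact rot_norm θ x₀
  obtain ⟨-, hb, -⟩ := H ν T E F Ω u p f hν hT h K hKc hKΩ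
  have hb' := hb hfin
  have hpos : (0 : ℝ≥0∞) < ENNReal.ofReal (√(sg x₀) / 1024) := by
    rw [ENNReal.ofReal_pos]
    have := Real.sqrt_pos.2 h0
    positivity
  have hev := hb'.eventually (gt_mem_nhds hpos)
  obtain ⟨r, hr1, hr2⟩ := (hev.and self_mem_nhdsWithin).exists
  have hr3 : ENNReal.ofReal (r ^ 2) ≠ 0 := by
    rw [Ne, ENNReal.ofReal_eq_zero, not_le]
    positivity
  rw [ENNReal.div_lt_iff (Or.inl hr3) (Or.inl ENNReal.ofReal_ne_top),
    ← ENNReal.ofReal_mul (by positivity)] at hr1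
  obtain ⟨θ, y, hy1, hy2⟩ := ring_meas (x := x₀) hr2 (hr1.trans_le (ENNReal.ofReal_le_ofReal (by
    have := Real.sqrt_nonneg (sg x₀)
    nlinarith [pow_pos hr2 3])))
  refine hy1 ?_
  rw [mem_thickening_iff]
  refine ⟨rot θ x₀, ⟨hKin θ, sing_rot hT h.openO ha hx₀ hS θ⟩, ?_⟩
  rw [mem_ball, dist_comm] at hy2
  linarith

end Pool.Agent.N255.AX
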