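import Pool.Agent.R210.N3
import Pool.Agent.R210.Q2
import Pool.Agent.TH305.AX.Ring

/-!
Axisymmetric flows: the vorticity is axisymmetric; the coherence of the directions of an
axisymmetric field follows from the coherence in a meridional half plane and from the
verticality near the axis.
-/

set_option autoImplicit false

open MeasureTheory Set Metric Filter Topology
open scoped ContDiff ENNReal

namespace Pool.Agent.N255.AX

open H459R3.NS Pool.Agent.TH305.AX
open Pool.Agent.R210 (en rsq cu DirL en_nonneg en_sq en_smul en_add_le)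

/-- The set `Ω` is rotationally symmetric and the field `v` is axisymmetric on it. -/
def AxiOn (Ω : Set V) (v : V → V) : Prop :=
  ∀ (θ : ℝ), ∀ x ∈ Ω, rot θ x ∈ Ω ∧ v (rot θ x) = rot θ (v x)

lemma rot_add (a b : ℝ) (x : V) : rot a (rot b x) = rot (a + b) x := by
  funext i
  fin_cases i <;> simp [rot, Real.cos_add, Real.sin_add] <;> ring

lemma rot_zero' (x : V) : rot 0 x = x := by
  funext i
  fin_cases i <;> simp [rot]

lemma rsq3 (a : V) : rsq a = a 0 ^ 2 + a 1 ^ 2 + a 2 ^ 2 := by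
  unfold rsq
  rw [Fin.sum_univ_three]

lemma rot0 (θ : ℝ) (x : V) : rot θ x 0 = Real.cos θ * x 0 - Real.sin θ * x 1 := rfl
lemma rot1 (θ : ℝ) (x : V) : rot θ x 1 = Real.sin θ * x 0 + Real.cos θ * x 1 := rfl
lemma rot2 (θ : ℝ) (x : V) : rot θ x 2 = x 2 := rfl

lemma en_rot (θ : ℝ) (x : V) : en (rot θ x) = en x := by
  unfold en
  congr 1
  rw [rsq3, rsq3, rot0, rot1, rot2]
  linear_combination (x 0 ^ 2 + x 1 ^ 2) * Real.sin_sq_add_cos_sq θ

lemma rep (x : V) : ∃ θ : ℝ, x = rot θ ![√(sg x), 0, x 2] := by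
  obtain ⟨θ, hθ⟩ := circ_pt x (c := √(sg x)) (d := 0) (by
    rw [Real.sq_sqrt (sg_nonneg x)]
    ring)
  refine ⟨-θ, ?_⟩
  rw [← hθ, rot_add, neg_add_cancel, rot_zero']

/-- The curl of an axisymmetric field is axisymmetric. -/
lemma curl_rot {Ω : Set V} {v : V → V} (hΩ : IsOpen Ω) (hv : ∀ x ∈ Ω, DifferentiableAt ℝ v x)
    (ha : AxiOn Ω v) (θ : ℝ) {x : V} (hx : x ∈ Ω) : cu v (rot θ x) = rot θ (cu v x) := by
  have hA : HasFDerivAt v (fderiv ℝ v (rot θ x)) (rot θ x) := (hv _ (ha θ x hx).1).hasFDerivAt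
  have hB : HasFDerivAt v (fderiv ℝ v x) x := (hv x hx).hasFDerivAt
  obtain ⟨A, hAe⟩ : ∃ A, A = fderiv ℝ v (rot θ x) := ⟨_, rfl⟩
  obtain ⟨B, hBe⟩ : ∃ B, B = fderiv ℝ v x := ⟨_, rfl⟩
  rw [← hAe] at hA
  rw [← hBe] at hB
  have h1 : HasFDerivAt (fun y => v (rot θ y)) (A.comp (rotL θ)) x :=
    HasFDerivAt.comp x (show HasFDerivAt v A (rotL θ x) from hA) (rotL θ).hasFDerivAt
  have h2 : HasFDerivAt (fun y => rot θ (v y)) ((rotL θ).comp B) x :=
    HasFDerivAt.comp x (rotL θ).hasFDerivAt hB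
  have h3 : (fun y => rot θ (v y)) =ᶠ[𝓝 x] fun y => v (rot θ y) := by
    filter_upwards [hΩ.mem_nhds hx] with y hy
    exact (ha θ y hy).2.symm
  have h4 : A.comp (rotL θ) = (rotL θ).comp B := (h1.congr_of_eventuallyEq h3).unique h2
  have h5 : ∀ i j : Fin 3, ∑ a, Rm θ a j * A (Pi.single a 1) i
      = rot θ (B (Pi.single j 1)) i := by
    intro i j
    have h6 := congrArg (fun L : V →L[ℝ] V => L (Pi.single j 1) i) h4
    have h7 : A (rot θ (Pi.single j 1)) i = rot θ (B (Pi.single j 1)) i := h6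
    rw [rot_single, map_sum, Finset.sum_apply] at h7
    rw [← h7]
    exact Finset.sum_congr rfl fun a _ => by rw [map_smul, Pi.smul_apply, smul_eq_mul]
  have pA : ∀ i j : Fin 3, pd j (fun y => v y i) (rot θ x) = A (Pi.single j 1) i := by
    intro i j
    unfold pd
    have h := ((ContinuousLinearMap.proj (R := ℝ) (φ := fun _ : Fin 3 => ℝ) i).hasFDerivAt
      (x := v (rot θ x))).comp (rot θ x) hA
    have h' : HasFDerivAt (fun y => v y i)
        ((ContinuousLinearMap.proj (R := ℝ) (φ := fun _ : Fin 3 => ℝ) i).comp A) (rot θ x) := h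
    rw [h'.fderiv]
    rfl
  have pB : ∀ i j : Fin 3, pd j (fun y => v y i) x = B (Pi.single j 1) i := by
    intro i j
    unfold pd
    have h := ((ContinuousLinearMap.proj (R := ℝ) (φ := fun _ : Fin 3 => ℝ) i).hasFDerivAt
      (x := v x)).comp x hB
    have h' : HasFDerivAt (fun y => v y i)
        ((ContinuousLinearMap.proj (R := ℝ) (φ := fun _ : Fin 3 => ℝ) i).comp B) x := h
    rw [h'.fderiv]
    rfl
  have e00 := h5 0 0
  have e01 := h5 0 1
  have e02 := h5 0 2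
  have e10 := h5 1 0
  have e11 := h5 1 1
  have e12 := h5 1 2
  have e20 := h5 2 0
  have e21 := h5 2 1
  simp only [Fin.sum_univ_three, Rm, rot0, rot1, rot2] at e00 e01 e02 e10 e11 e12 e20 e21
  simp at e00 e01 e02 e10 e11 e12 e20 e21
  have h := Real.sin_sq_add_cos_sq θ
  funext i
  fin_cases i
  · show pd 1 (fun y => v y 2) (rot θ x) - pd 2 (fun y => v y 1) (rot θ x)
      = Real.cos θ * (pd 1 (fun y => v y 2) x - pd 2 (fun y => v y 1) x)
        - Real.sin θ * (pd 2 (fun y => v y 0) x - pd 0 (fun y => v y 2) x)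
    simp only [pA, pB]
    linear_combination Real.sin θ * e20 + Real.cos θ * e21 - e12 - A (Pi.single 1 1) 2 * h
  · show pd 2 (fun y => v y 0) (rot θ x) - pd 0 (fun y => v y 2) (rot θ x)
      = Real.sin θ * (pd 1 (fun y => v y 2) x - pd 2 (fun y => v y 1) x)
        + Real.cos θ * (pd 2 (fun y => v y 0) x - pd 0 (fun y => v y 2) x)
    simp only [pA, pB]
    linear_combination e02 - Real.cos θ * e20 + Real.sin θ * e21 + A (Pi.single 0 1) 2 * h
  · show pd 0 (fun y => v y 1) (rot θ x) - pd 1 (fun y => v y 0) (rot θ x)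
      = pd 0 (fun y => v y 1) x - pd 1 (fun y => v y 0) x
    simp only [pA, pB]
    linear_combination Real.cos θ * e10 - Real.sin θ * e11 - Real.sin θ * e00
      - Real.cos θ * e01 - (A (Pi.single 0 1) 1 - A (Pi.single 1 1) 0) * h
      + (B (Pi.single 0 1) 1 - B (Pi.single 1 1) 0) * h

lemma sig_rpow {σ y d β : ℝ} (hσ : 0 ≤ σ) (hσ2 : σ ≤ 2) (hy : 0 ≤ y) (hd : σ * y ≤ d)
    (hβ0 : 0 < β) (hβ1 : β ≤ 1) : σ * y ^ β ≤ 2 * d ^ β := by
  have hd0 : 0 ≤ d := (mul_nonneg hσ hy).trans hd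
  rcases hσ.eq_or_lt with h0 | h0
  · rw [← h0, zero_mul]
    positivity
  · have e1 : σ = σ ^ (1 - β) * σ ^ β := by
      rw [← Real.rpow_add h0]
      simp
    have e2 : σ ^ (1 - β) ≤ 2 := by
      rcases le_total σ 1 with h1 | h1
      · exact (Real.rpow_le_one hσ h1 (by linarith)).trans (by norm_num)
      · calc σ ^ (1 - β) ≤ σ ^ (1 : ℝ) := Real.rpow_le_rpow_of_exponent_le h1 (by linarith)
          _ = σ := Real.rpow_one σ
          _ ≤ 2 := hσ2
    calc σ * y ^ β = σ ^ (1 - β) * (σ ^ β * y ^ β) := by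
          rw [← mul_assoc, ← e1]
      _ = σ ^ (1 - β) * (σ * y) ^ β := by rw [Real.mul_rpow hσ hy]
      _ ≤ 2 * d ^ β := by gcongr

lemma key {X Y x y : V} {a b c β : ℝ} (hβ0 : 0 < β) (hβ1 : β ≤ 1) (hx1 : x 1 = 0) (hy1 : y 1 = 0)
    (hy0 : 0 ≤ y 0) (hle : y 0 ≤ x 0)
    (hm : en (en Y • X - en X • Y) ≤ c * en (x - y) ^ β * (en X * en Y))
    (hv : √(Y 0 ^ 2 + Y 1 ^ 2) ≤ c * y 0 ^ β * en Y) :
    en (en Y • rot a X - en X • rot b Y)
      ≤ 3 * |c| * en (rot a x - rot b y) ^ β * (en X * en Y) := by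
  obtain ⟨s2, hs2⟩ : ∃ s2, s2 = (Real.cos a - Real.cos b) ^ 2 + (Real.sin a - Real.sin b) ^ 2 :=
    ⟨_, rfl⟩
  have hs0 : 0 ≤ s2 := by rw [hs2]; positivity
  have hs4 : s2 ≤ 4 := by
    have h1 := Real.sin_sq_add_cos_sq a
    have h2 := Real.sin_sq_add_cos_sq b
    nlinarith [sq_nonneg (Real.cos a + Real.cos b), sq_nonneg (Real.sin a + Real.sin b)]
  have hX := en_nonneg X
  have hY := en_nonneg Y
  have hd0 := en_nonneg (rot a x - rot b y)
  have hdsq : en (rot a x - rot b y) ^ 2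
      = (x 0 - y 0) ^ 2 + x 0 * y 0 * s2 + (x 2 - y 2) ^ 2 := by
    rw [en_sq, rsq3]
    simp only [Pi.sub_apply, rot0, rot1, rot2, hx1, hy1, hs2]
    linear_combination (x 0 ^ 2 - x 0 * y 0) * Real.sin_sq_add_cos_sq a
      + (y 0 ^ 2 - x 0 * y 0) * Real.sin_sq_add_cos_sq b
  have hesq : en (x - y) ^ 2 = (x 0 - y 0) ^ 2 + (x 2 - y 2) ^ 2 := by
    rw [en_sq, rsq3]
    simp only [Pi.sub_apply, hx1, hy1]
    ring
  have hx0 : 0 ≤ x 0 := hy0.trans hle
  have hed : en (x - y) ≤ en (rot a x - rot b y) := by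
    refine le_of_sq_le_sq ?_ hd0
    rw [hdsq, hesq]
    have : 0 ≤ x 0 * y 0 * s2 := by positivity
    linarith
  have hsy : √s2 * y 0 ≤ en (rot a x - rot b y) := by
    refine le_of_sq_le_sq ?_ hd0
    rw [hdsq, mul_pow, Real.sq_sqrt hs0]
    have : s2 * y 0 ^ 2 ≤ x 0 * y 0 * s2 := by
      have := mul_le_mul_of_nonneg_left hle (mul_nonneg hs0 hy0)
      nlinarith
    nlinarith [sq_nonneg (x 0 - y 0), sq_nonneg (x 2 - y 2)]
  have hs2' : √s2 ≤ 2 := by
    rw [Real.sqrt_le_left (by norm_num)]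
    linarith
  have hpow := sig_rpow (Real.sqrt_nonneg s2) hs2' hy0 hsy hβ0 hβ1
  have hdec : en Y • rot a X - en X • rot b Y
      = rot a (en Y • X - en X • Y) + en X • (rot a Y - rot b Y) := by
    funext i
    fin_cases i <;> simp [rot] <;> ring
  have hrr : en (rot a Y - rot b Y) = √s2 * √(Y 0 ^ 2 + Y 1 ^ 2) := by
    rw [← Real.sqrt_mul hs0]
    unfold en
    congr 1
    rw [rsq3]
    simp only [Pi.sub_apply, rot0, rot1, rot2, hs2]
    ring
  have hc := le_abs_self c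
  have hc0 := abs_nonneg c
  have h1 : en (en Y • X - en X • Y)
      ≤ |c| * en (rot a x - rot b y) ^ β * (en X * en Y) := by
    refine hm.trans ?_
    have : en (x - y) ^ β ≤ en (rot a x - rot b y) ^ β := by
      have := en_nonneg (x - y)
      gcongr
    have h0 : 0 ≤ en (x - y) ^ β := Real.rpow_nonneg (en_nonneg _) _
    gcongr
  have h2 : en (rot a Y - rot b Y) ≤ |c| * (2 * en (rot a x - rot b y) ^ β) * en Y := by
    rw [hrr]
    have h0 : 0 ≤ y 0 ^ β := Real.rpow_nonneg hy0 _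
    calc √s2 * √(Y 0 ^ 2 + Y 1 ^ 2) ≤ √s2 * (|c| * y 0 ^ β * en Y) := by
          refine mul_le_mul_of_nonneg_left (hv.trans ?_) (Real.sqrt_nonneg _)
          gcongr
      _ = |c| * (√s2 * y 0 ^ β) * en Y := by ring
      _ ≤ |c| * (2 * en (rot a x - rot b y) ^ β) * en Y := by gcongr
  rw [hdec]
  refine (en_add_le _ _).trans ?_
  rw [en_rot, en_smul, abs_of_nonneg hX]
  have h3 := mul_le_mul_of_nonneg_left h2 hX
  calc en (en Y • X - en X • Y) + en X * en (rot a Y - rot b Y)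
      ≤ |c| * en (rot a x - rot b y) ^ β * (en X * en Y)
        + en X * (|c| * (2 * en (rot a x - rot b y) ^ β) * en Y) := add_le_add h1 h3
    _ = 3 * |c| * en (rot a x - rot b y) ^ β * (en X * en Y) := by ring

lemma en_neg' (a : V) : en (-a) = en a := by
  have h := en_smul (-1) a
  rw [neg_one_smul] at h
  rw [h]
  simp

/-- The directions of an axisymmetric field are coherent near a point `x₀` of the axis if they are
coherent in a meridional half plane, and almost vertical near the axis. -/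
theorem coh {W : V → V} {c β K r : ℝ} {x₀ : V} (hβ0 : 0 < β) (hβ1 : β ≤ 1) (hr : 0 < r)
    (h0 : x₀ 0 = 0) (h1 : x₀ 1 = 0)
    (hW : ∀ θ : ℝ, ∀ x ∈ ball x₀ r, W (rot θ x) = rot θ (W x))
    (hm : ∀ x ∈ ball x₀ r, ∀ y ∈ ball x₀ r, 0 ≤ x 0 → x 1 = 0 → 0 ≤ y 0 → y 1 = 0 →
      K < en (W x) → K < en (W y) →
      en (en (W y) • W x - en (W x) • W y) ≤ c * en (x - y) ^ β * (en (W x) * en (W y)))
    (hv : ∀ x ∈ ball x₀ r, 0 ≤ x 0 → x 1 = 0 → K < en (W x) →
      √(W x 0 ^ 2 + W x 1 ^ 2) ≤ c * x 0 ^ β * en (W x)) :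
    DirL W K (3 * |c|) β (ball x₀ (r / 2)) := by
  have hmem : ∀ x ∈ ball x₀ (r / 2), (![√(sg x), 0, x 2] : V) ∈ ball x₀ r := by
    intro x hx
    rw [mem_ball, dist_eq_norm, pi_norm_lt_iff (by positivity)] at hx ⊢
    have k0 := hx 0
    have k1 := hx 1
    have k2 := hx 2
    rw [Pi.sub_apply, Real.norm_eq_abs] at k0 k1 k2
    rw [h0, sub_zero] at k0
    rw [h1, sub_zero] at k1
    intro i
    rw [Pi.sub_apply, Real.norm_eq_abs]
    fin_cases i
    · show |√(sg x) - x₀ 0| < r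
      rw [h0, sub_zero, abs_of_nonneg (Real.sqrt_nonneg _), Real.sqrt_lt' hr]
      have e0 : x 0 ^ 2 < (r / 2) ^ 2 := by
        rw [← sq_abs]
        exact pow_lt_pow_left₀ k0 (abs_nonneg _) two_ne_zero
      have e1 : x 1 ^ 2 < (r / 2) ^ 2 := by
        rw [← sq_abs]
        exact pow_lt_pow_left₀ k1 (abs_nonneg _) two_ne_zero
      unfold sg
      nlinarith
    · show |(0 : ℝ) - x₀ 1| < r
      rw [h1, sub_zero, abs_zero]
      exact hr
    · show |x 2 - x₀ 2| < r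
      linarith
  intro x hx y hy kx ky
  obtain ⟨a, ha⟩ := rep x
  obtain ⟨b, hb⟩ := rep y
  obtain ⟨x', hx'⟩ : ∃ x' : V, x' = ![√(sg x), 0, x 2] := ⟨_, rfl⟩
  obtain ⟨y', hy'⟩ : ∃ y' : V, y' = ![√(sg y), 0, y 2] := ⟨_, rfl⟩
  have mx : x' ∈ ball x₀ r := hx' ▸ hmem x hx
  have my : y' ∈ ball x₀ r := hy' ▸ hmem y hy
  rw [← hx'] at ha
  rw [← hy'] at hb
  have x0 : 0 ≤ x' 0 := by rw [hx']; exact Real.sqrt_nonneg _
  have y0 : 0 ≤ y' 0 := by rw [hy']; exact Real.sqrt_nonneg _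
  have x1 : x' 1 = 0 := by rw [hx']; rfl
  have y1 : y' 1 = 0 := by rw [hy']; rfl
  have Wx : W x = rot a (W x') := by rw [ha, hW a x' mx]
  have Wy : W y = rot b (W y') := by rw [hb, hW b y' my]
  have ex : en (W x) = en (W x') := by rw [Wx, en_rot]
  have ey : en (W y) = en (W y') := by rw [Wy, en_rot]
  rw [ex] at kx
  rw [ey] at ky
  rw [ex, ey, Wx, Wy, ha, hb]
  rcases le_total (y' 0) (x' 0) with hle | hle
  · exact key hβ0 hβ1 x1 y1 y0 hle (hm x' mx y' my x0 x1 y0 y1 kx ky) (hv y' my y0 y1 ky)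
  · have h := key (a := b) (b := a) hβ0 hβ1 y1 x1 x0 hle (hm y' my x' mx y0 y1 x0 x1 ky kx)
      (hv x' mx x0 x1 kx)
    have e1 : en (W y') • rot a (W x') - en (W x') • rot b (W y')
        = -(en (W x') • rot b (W y') - en (W y') • rot a (W x')) := by abel
    have e2 : rot a x' - rot b y' = -(rot b y' - rot a x') := by abel
    rw [e1, e2, en_neg', en_neg', mul_comm (en (W x')) (en (W y'))]
    exact h

end Pool.Agent.N255.AX
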